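import Pool.Agent.Work.MP_64ea0f_cs.InterfaceG3

set_option autoImplicit false

/-! # Block NRT (helper17): nearness -/

namespace Pool.CS
namespace H17

variable {D : Rd}

theorem nr_mul (w w' : D.W) (v : D.V) : D.ρ (w * w') v = D.ρ w (D.ρ w' v) := by
  rw [map_mul, Module.End.mul_apply]

theorem nr_inv_l (w : D.W) (v : D.V) : D.ρ w⁻¹ (D.ρ w v) = v := by
  rw [← nr_mul, inv_mul_cancel, map_one, Module.End.one_apply]

theorem nr_inv_r (w : D.W) (v : D.V) : D.ρ w (D.ρ w⁻¹ v) = v := by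
  rw [← nr_mul, mul_inv_cancel, map_one, Module.End.one_apply]

theorem nr_Rt {v : D.V} (w : D.W) (h : v ∈ D.Rt) : D.ρ w v ∈ D.Rt := by
  obtain ⟨u, s, rfl⟩ := h
  exact ⟨w * u, s, (nr_mul w u _).symm⟩

/-- a root or its negative is positive -/
theorem nr_sign {v : D.V} (h : v ∈ D.Rt) : v ∈ D.Ps ∨ -v ∈ D.Ps := by
  obtain ⟨u, s, rfl⟩ := h
  rcases D.sign u s with h1 | h1
  · exact Or.inl ⟨⟨u, s, rfl⟩, h1⟩
  · refine Or.inr ⟨⟨u * D.σ s, s, ?_⟩, fun t => ?_⟩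
    · rw [nr_mul]
      have h2 : D.ρ (D.σ s) (D.e s) = -D.e s := by
        have h3 := D.refl s (D.e s)
        have h4 : bform D.k (D.e s) (Pi.single s 1) = 1 := by
          show bform D.k (Pi.single s 1) (Pi.single s 1) = 1
          unfold bform
          rw [Finset.sum_eq_single s]
          · rw [Finset.sum_eq_single s]
            · simp [D.diag]
            · intro b _ hb; simp [Pi.single_eq_of_ne hb]
            · intro h; exact absurd (Finset.mem_univ s) h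
          · intro b _ hb
            refine Finset.sum_eq_zero fun c _ => ?_
            simp [Pi.single_eq_of_ne hb]
          · intro h; exact absurd (Finset.mem_univ s) h
        rw [h4] at h3
        rw [h3]
        show D.e s - (2 * 1 : ℝ) • D.e s = -D.e s
        module
      rw [h2, map_neg]
    · have := h1 t
      rw [Pi.neg_apply]
      exact neg_nonneg.2 this

theorem nr_Fd {δ v : D.V} (w : D.W) (h : v ∈ D.Fd δ) : D.ρ w v ∈ D.Fd (D.ρ w δ) := by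
  obtain ⟨h1, t, ht, h2⟩ := h
  refine ⟨nr_Rt w h1, t, ht, ?_⟩
  have := nr_Rt w h2
  rwa [map_add, map_smul] at this

theorem nr_Fd' {δ v : D.V} (w : D.W) (h : D.ρ w v ∈ D.Fd (D.ρ w δ)) : v ∈ D.Fd δ := by
  have := nr_Fd w⁻¹ h
  rwa [nr_inv_l, nr_inv_l] at this

/-- `n⁻¹` preserves the roots supported in `K` -/
theorem nr_In {K : Set D.S} {n : D.W} (hn : n ∈ D.NJ K) {v : D.V} (hv : v ∈ D.Rt)
    (h : D.In K v) : D.In K (D.ρ n⁻¹ v) := by
  have key : ∀ u ∈ D.Ps, D.In K u → D.In K (D.ρ n⁻¹ u) := by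
    intro u hu huK
    have h1 := (hn (D.ρ n⁻¹ u)).2 (by rw [nr_inv_r]; exact ⟨hu, huK⟩)
    exact h1.2
  rcases nr_sign hv with h1 | h1
  · exact key v h1 h
  · have h2 := key (-v) h1 (fun s hs => by rw [Pi.neg_apply, h s hs, neg_zero])
    intro s hs
    have h3 := h2 s hs
    rw [map_neg, Pi.neg_apply, neg_eq_zero] at h3
    exact h3

end H17

open H17 in
theorem nrt_thm : Stmt_ORD → Stmt_NRT := by
  intro _ D K C
  refine ⟨?_, ?_, ?_⟩
  · rintro x y δ hxy ⟨f, h1, h2, h3⟩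
    exact ⟨f, h1, h2, fun φ hy hF => h3 φ ((hxy φ hF).2 hy) hF⟩
  · rintro C' x δ hC ⟨f, h1, h2, h3⟩
    exact ⟨f, h1, h2, fun φ hx hF => (neg_le_neg hC).trans (h3 φ hx hF)⟩
  · rintro x δ - n hn ⟨f, h1, h2, h3⟩
    refine ⟨f ∘ₗ D.ρ n⁻¹, ?_, ?_, ?_⟩
    · show f (D.ρ n⁻¹ (D.ρ n δ)) = 1
      rw [nr_inv_l, h1]
    · intro φ hφ hK
      show f (D.ρ n⁻¹ φ) = 0
      refine h2 _ ?_ (nr_In hn hφ.1 hK)
      apply nr_Fd' n
      rwa [nr_inv_r]
    · rintro φ ⟨ψ, hψ, rfl⟩ hF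
      show -C ≤ f (D.ρ n⁻¹ (D.ρ n ψ))
      rw [nr_inv_l]
      exact h3 ψ hψ (nr_Fd' n hF)

end Pool.CS
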