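import Pool.Agent.Work.MP_64ea0f_cs.InterfaceG4

set_option autoImplicit false

/-! # Block PSD (helper17): affine vectors and positive semidefinite forms -/

namespace Pool.CS
namespace H17

variable {D : Rd}

theorem ps_Be (v : D.V) (r : D.S) : D.B v (D.e r) = ∑ s, v s * D.k s r := by
  show bform D.k v (Pi.single r 1) = _
  unfold bform
  refine Finset.sum_congr rfl fun s _ => ?_
  rw [Finset.sum_eq_single r]
  · simp
  · intro b _ hb; simp [Pi.single_eq_of_ne hb]
  · intro h; exact absurd (Finset.mem_univ r) h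

/-- the square identity -/
theorem ps_id {u v : D.V} {a : D.S → ℝ} (h0 : ∀ s, u s * D.B u (D.e s) = 0)
    (hv : ∀ s, v s = u s * a s) :
    ∑ r, ∑ t, -D.k r t * (u r * u t) * (a r - a t) ^ 2 = 2 * D.B v v := by
  have h1 : ∑ r, ∑ t, D.k r t * (u r * u t) * a r ^ 2 = 0 := by
    refine Finset.sum_eq_zero fun r _ => ?_
    have h2 : ∑ t, D.k r t * (u r * u t) * a r ^ 2 = a r ^ 2 * (u r * D.B u (D.e r)) := by
      rw [ps_Be, Finset.mul_sum, Finset.mul_sum]
      refine Finset.sum_congr rfl fun t _ => ?_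
      rw [D.symm t r]
      ring
    rw [h2, h0, mul_zero]
  have h3 : ∑ r, ∑ t, D.k r t * (u r * u t) * a t ^ 2 = 0 := by
    rw [Finset.sum_comm, ← h1]
    refine Finset.sum_congr rfl fun r _ => Finset.sum_congr rfl fun t _ => ?_
    rw [D.symm t r]
    ring
  have h4 : D.B v v = ∑ r, ∑ t, D.k r t * (u r * u t) * (a r * a t) := by
    show bform D.k v v = _
    unfold bform
    refine Finset.sum_congr rfl fun r _ => Finset.sum_congr rfl fun t _ => ?_
    rw [hv r, hv t]
    ring
  have h5 : ∑ r, ∑ t, -D.k r t * (u r * u t) * (a r - a t) ^ 2 =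
      2 * ∑ r, ∑ t, D.k r t * (u r * u t) * (a r * a t) -
      ∑ r, ∑ t, D.k r t * (u r * u t) * a r ^ 2 -
      ∑ r, ∑ t, D.k r t * (u r * u t) * a t ^ 2 := by
    rw [Finset.mul_sum, ← Finset.sum_sub_distrib, ← Finset.sum_sub_distrib]
    refine Finset.sum_congr rfl fun r _ => ?_
    rw [Finset.mul_sum, ← Finset.sum_sub_distrib, ← Finset.sum_sub_distrib]
    refine Finset.sum_congr rfl fun t _ => ?_
    ring
  rw [h5, h1, h3, h4]
  ring

end H17

open H17 in
theorem psd_thm : Stmt_BAS → Stmt_PSD := by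
  intro hB D u hu huu hconn hne
  obtain ⟨bs, bl, -, bv, -, brt, -, -, bneg, -⟩ := hB D
  obtain ⟨hu0, hu1⟩ := hu
  -- all terms vanish
  have h0 : ∀ s, u s * D.B u (D.e s) = 0 := by
    have h1 : ∑ s, u s * D.B u (D.e s) = 0 := by rw [← bv, huu]
    have h2 : ∀ s ∈ Finset.univ, u s * D.B u (D.e s) ≤ 0 :=
      fun s _ => mul_nonpos_of_nonneg_of_nonpos (hu0 s) (hu1 s)
    intro s
    exact (Finset.sum_eq_zero_iff_of_nonpos h2).1 h1 s (Finset.mem_univ s)
  have part3 : ∀ v, D.In {s | u s ≠ 0} v → 0 ≤ D.B v v ∧ (D.B v v = 0 → ∃ t : ℝ, v = t • u) := by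
    intro v hv
    have hva : ∀ s, v s = u s * (v s / u s) := by
      intro s
      by_cases h : u s = 0
      · rw [h, zero_mul]
        exact hv s (fun h' => h' h)
      · field_simp
    have hid := ps_id (a := fun s => v s / u s) h0 hva
    have hterm : ∀ r t, 0 ≤ -D.k r t * (u r * u t) * (v r / u r - v t / u t) ^ 2 := by
      intro r t
      by_cases hrt : r = t
      · subst hrt; simp
      · have h1 := D.off r t hrt
        have h2 : 0 ≤ -D.k r t := by linarith
        exact mul_nonneg (mul_nonneg h2 (mul_nonneg (hu0 r) (hu0 t))) (sq_nonneg _)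
    have hsum : 0 ≤ ∑ r, ∑ t, -D.k r t * (u r * u t) * (v r / u r - v t / u t) ^ 2 :=
      Finset.sum_nonneg fun r _ => Finset.sum_nonneg fun t _ => hterm r t
    refine ⟨by linarith, fun hz => ?_⟩
    have hz1 : ∑ r, ∑ t, -D.k r t * (u r * u t) * (v r / u r - v t / u t) ^ 2 = 0 := by
      rw [hid, hz, mul_zero]
    have hz2 : ∀ r t, -D.k r t * (u r * u t) * (v r / u r - v t / u t) ^ 2 = 0 := by
      intro r t
      have h1 := (Finset.sum_eq_zero_iff_of_nonneg
        (fun r _ => Finset.sum_nonneg fun t _ => hterm r t)).1 hz1 r (Finset.mem_univ r)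
      exact (Finset.sum_eq_zero_iff_of_nonneg (fun t _ => hterm r t)).1 h1 t (Finset.mem_univ t)
    obtain ⟨s0, hs0⟩ : ∃ s, u s ≠ 0 := by
      by_contra hcon
      push Not at hcon
      exact hne (funext hcon)
    have hK := hconn {s | u s ≠ 0 ∧ v s / u s = v s0 / u s0} (fun s hs => hs.1) ⟨s0, hs0, rfl⟩ (by
      rintro s ⟨hs1, hs2⟩ t ⟨ht1, ht2⟩
      by_contra hk
      apply ht2
      refine ⟨ht1, ?_⟩
      have h1 := hz2 s t
      have h2 : (v s / u s - v t / u t) ^ 2 = 0 := by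
        rcases mul_eq_zero.1 h1 with h3 | h3
        · exfalso
          rcases mul_eq_zero.1 h3 with h4 | h4
          · exact hk (neg_eq_zero.1 h4)
          · exact (mul_ne_zero hs1 ht1) h4
        · exact h3
      have h3 : v s / u s - v t / u t = 0 := pow_eq_zero_iff (by norm_num) |>.1 h2
      linarith)
    refine ⟨v s0 / u s0, funext fun s => ?_⟩
    rw [Pi.smul_apply, smul_eq_mul]
    by_cases h : u s = 0
    · rw [h, mul_zero]
      exact hv s (fun h' => h' h)
    · have h1 : s ∈ {s | u s ≠ 0 ∧ v s / u s = v s0 / u s0} := by rw [hK]; exact h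
      rw [← h1.2]
      field_simp
  refine ⟨?_, ?_, part3, ?_⟩
  · intro s hs
    exact (mul_eq_zero.1 (h0 s)).resolve_left hs
  · intro s hs hz t ht
    rw [ps_Be] at hz
    have h1 : ∀ r ∈ Finset.univ, u r * D.k r s ≤ 0 := by
      intro r _
      by_cases hrs : r = s
      · subst hrs; rw [hs, zero_mul]
      · exact mul_nonpos_of_nonneg_of_nonpos (hu0 r) (D.off r s hrs)
    have h2 := (Finset.sum_eq_zero_iff_of_nonpos h1).1 hz t (Finset.mem_univ t)
    rw [D.symm s t]
    exact (mul_eq_zero.1 h2).resolve_left ht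
  · intro φ hφ ψ hψ hφJ hψJ
    have e1 := brt φ hφ
    have e2 := brt ψ hψ
    have hexp : ∀ c : ℝ, D.B (ψ + c • φ) (ψ + c • φ) = 1 + 2 * c * D.B φ ψ + c * c := by
      intro c
      have f1 : D.B (ψ + c • φ) (ψ + c • φ) =
          D.B ψ (ψ + c • φ) + c * D.B φ (ψ + c • φ) := by
        have := bl 1 c ψ φ (ψ + c • φ)
        rwa [one_smul, one_mul] at this
      have f2 : D.B ψ (ψ + c • φ) = 1 + c * D.B φ ψ := by
        rw [bs ψ (ψ + c • φ)]
        have := bl 1 c ψ φ ψ
        rwa [one_smul, one_mul, e2] at this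
      have f3 : D.B φ (ψ + c • φ) = D.B φ ψ + c := by
        rw [bs φ (ψ + c • φ)]
        have := bl 1 c ψ φ φ
        rwa [one_smul, one_mul, e1, mul_one, bs ψ φ] at this
      rw [f1, f2, f3]
      ring
    have hin : ∀ c : ℝ, D.In {s | u s ≠ 0} (ψ + c • φ) := by
      intro c s hs
      rw [Pi.add_apply, Pi.smul_apply, hφJ s hs, hψJ s hs, smul_zero, add_zero]
    have g1 := part3 _ (hin (-1))
    have g2 := part3 _ (hin 1)
    rw [hexp] at g1 g2
    refine ⟨abs_le.2 ⟨by linarith [g2.1], by linarith [g1.1]⟩, fun h => ?_, fun h => ?_⟩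
    · obtain ⟨t, ht⟩ := g1.2 (by rw [h]; norm_num)
      refine ⟨t, ?_⟩
      rw [← ht]
      module
    · obtain ⟨t, ht⟩ := g2.2 (by rw [h]; norm_num)
      refine ⟨t, ?_⟩
      rw [← ht]
      module

end Pool.CS
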