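import Pool.Agent.Work.MP_64ea0f_cs.InterfaceG4
import Pool.Agent.Work.MP_64ea0f_cs_helper83.YJ6

set_option autoImplicit false

/-! # Block YJ6G (helper17): Smith theory for the folded cubings of `YJ J`

The fixed cubes of `YJ J` are found as in block YJ6 (helper83). -/

namespace Pool.CS
namespace H17

/-- fixed cubes are transported by the folding map -/
theorem hasFix_fold {Λ : Type} {G : SimpleGraph Λ} {Y Q N : Type} [Group N] [MulAction N Y]
    [MulAction N Q] [MulAction N Λ] {L : LS G Y} {LQ : LS G Q} {q : Y → Q}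
    (hq : ∀ (n : N) y, q (n • y) = n • q y)
    (hm : ∀ a y, L.τ a y ≠ y → LQ.τ a (q y) = q (L.τ a y) ∧ LQ.τ a (q y) ≠ q y) {n : N}
    (h : HasFix G L n) : HasFix G LQ n := by
  obtain ⟨y, I, hI, hmov, hn, γ, hγ, hy⟩ := h
  have key : ∀ γ ∈ rsub G I, (∀ a ∈ I, L.τ a (L.r y γ) ≠ L.r y γ) ∧
      LQ.r (q y) γ = q (L.r y γ) := by
    intro γ hγ
    have step : ∀ z : Y, (∀ a ∈ I, L.τ a z ≠ z) → ∀ b ∈ I, ∀ a ∈ I, L.τ a (L.τ b z) ≠ L.τ b z := by
      intro z hz b hb a ha hab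
      by_cases h : a = b
      · subst h
        rw [L.inv] at hab
        exact hz a ha hab.symm
      · have hc := L.com a b (hI a ha b hb h) z
        rw [hc] at hab
        have h2 := congrArg (L.τ b) hab
        rw [L.inv, L.inv] at h2
        exact hz a ha h2
    refine Subgroup.closure_induction_right (p := fun γ _ =>
      (∀ a ∈ I, L.τ a (L.r y γ) ≠ L.r y γ) ∧ LQ.r (q y) γ = q (L.r y γ)) ?_ ?_ ?_ hγ
    · refine ⟨fun a ha => ?_, ?_⟩
      · rw [LS.r_one]; exact hmov a ha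
      · rw [LS.r_one, LS.r_one]
    · rintro x hx _ ⟨b, hb, rfl⟩ ⟨h1, h2⟩
      refine ⟨fun a ha => ?_, ?_⟩
      · rw [LS.r_mul, LS.r_rg]
        exact step _ h1 b hb a ha
      · rw [LS.r_mul, LS.r_rg, LS.r_mul, LS.r_rg, h2]
        exact (hm b _ (h1 b hb)).1
    · rintro x hx _ ⟨b, hb, rfl⟩ ⟨h1, h2⟩
      rw [rg_inv]
      refine ⟨fun a ha => ?_, ?_⟩
      · rw [LS.r_mul, LS.r_rg]
        exact step _ h1 b hb a ha
      · rw [LS.r_mul, LS.r_rg, LS.r_mul, LS.r_rg, h2]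
        exact (hm b _ (h1 b hb)).1
  refine ⟨q y, I, hI, fun a ha => (hm a y (hmov a ha)).2, hn, γ, hγ, ?_⟩
  rw [← hq, hy, (key γ hγ).2]

/-- paths are transported by the folding map -/
theorem path_fold {Λ : Type} {G : SimpleGraph Λ} {Y Q : Type} {L : LS G Y} {LQ : LS G Q}
    {q : Y → Q} (hm : ∀ a y, L.τ a y ≠ y → LQ.τ a (q y) = q (L.τ a y)) (y : Y) (γ : RC G) :
    ∃ γ', LQ.r (q y) γ' = q (L.r y γ) := by
  induction γ using rac_induction_right with
  | h1 => exact ⟨1, by rw [LS.r_one, LS.r_one]⟩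
  | h2 a c ih =>
    obtain ⟨γ', h⟩ := ih
    by_cases h1 : L.τ a (L.r y c) = L.r y c
    · exact ⟨γ', by rw [LS.r_mul, LS.r_rg, h1, h]⟩
    · exact ⟨γ' * rg G a, by rw [LS.r_mul, LS.r_rg, LS.r_mul, LS.r_rg, h, hm a _ h1]⟩

end H17

open YJ6 H17 in
/-- **YJ6G** -/
theorem yj6g_thm : Stmt_YJ1 → Stmt_YJ2 → Stmt_YJ4 → Stmt_YJ5 → Stmt_DEV → Stmt_LSX → Stmt_NRM →
    Stmt_LBF → Stmt_FLD → Stmt_SMT2 → Stmt_BAS → Stmt_VX1 → Stmt_VX2 → Stmt_VX3 → Stmt_YJ6G := by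
  intro hYJ1 _ hYJ4 hYJ5 hDEV hLSX hNRM hLBF hFLD hSMT hBAS hVX1 hVX2 hVX3 D H hDeep J hJ p hp
    M hMH hMn hMf
  classical
  obtain ⟨-, -, -, -, Binv, -, -, -, negRt, -, -, -, -, -, -, -⟩ := hBAS D
  obtain ⟨-, vact, vone, vmul, -, -, -, -, vneg, -, vsub⟩ := hVX1 D
  obtain ⟨y1a, y1b, -, y1d⟩ := hYJ1 D J hJ
  obtain ⟨-, -, -, n1, ninv, nmul, -⟩ := hNRM D J
  obtain ⟨⟨L, hL⟩, y4⟩ := hYJ4 D H hDeep J hJ
  obtain ⟨y4a, y4b⟩ := y4 L hL
  obtain ⟨⟨L', hL'⟩, -⟩ := hLSX D H hDeep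
  obtain ⟨b, κ, c, hdev, hcinj⟩ := hDEV D H hDeep L' hL'
  have hΛ : Finite (D.Lb H) := hLBF D H hDeep.fin
  obtain ⟨ι, Q, q, LQ, hιne, f1, f2, f3, f4, f5, f6, f7⟩ :=
    hFLD D H hDeep L' hL' b κ c hdev hcinj J hJ L hL
  let N : Subgroup D.W :=
    { carrier := D.NJ J
      one_mem' := n1
      mul_mem' := fun {a b} ha hb => nmul a ha b hb
      inv_mem' := fun {a} ha => ninv a ha }
  let aL : MulAction D.W (D.Lb H) := lbAct D H hDeep.nor
  let aY : MulAction N (D.YT J) :=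
    { smul := fun n x => ⟨D.act n.1 x.1, y1b n.1 n.2 x.1 x.2⟩
      one_smul := fun x => Subtype.ext (vone x.1)
      mul_smul := fun a b x => Subtype.ext (vmul a.1 b.1 x.1) }
  have hfact : Fact p.Prime := ⟨hp⟩
  have hsmul1 : ∀ (n : N) (a : D.Lb H), (n • a).1 = D.ρ n.1 '' a.1 := fun n a => rfl
  have hsmul2 : ∀ (n : N) (y : D.YT J), (n • y).1 = D.act n.1 y.1 := fun n y => rfl
  -- fixed cubes
  have hfix : ∀ n : N, n ^ p = 1 → HasFix (D.lg H) L n := by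
    intro n hn
    obtain ⟨x, A, hx, -, hAmn, hAcr, hAJ, hAn, hxA⟩ := hYJ5 D J hJ n.1 n.2
      ⟨p, hp.pos, congrArg Subtype.val hn⟩
    have hI : ∀ a : D.Lb H, a ∈ {a : D.Lb H | ∃ ψ ∈ A, ψ ∈ a.1} →
        n • a ∈ {a : D.Lb H | ∃ ψ ∈ A, ψ ∈ a.1} := by
      rintro a ⟨ψ, hψ, hψa⟩
      rcases hAn ψ hψ with h | h
      · exact ⟨_, h, ⟨ψ, hψa, rfl⟩⟩
      · refine ⟨_, h, ⟨-ψ, ?_, map_neg _ _⟩⟩
        rw [lb_eq D H hψa]
        exact lab_neg D H (lab_self D H ψ)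
    have hIpow : ∀ j : ℕ, ∀ a : D.Lb H, a ∈ {a : D.Lb H | ∃ ψ ∈ A, ψ ∈ a.1} →
        n ^ j • a ∈ {a : D.Lb H | ∃ ψ ∈ A, ψ ∈ a.1} := by
      intro j
      induction j with
      | zero => intro a ha; rw [pow_zero, one_smul]; exact ha
      | succ j ih =>
        intro a ha
        rw [pow_succ', mul_smul]
        exact hI _ (ih a ha)
    refine ⟨⟨x, hx⟩, {a | ∃ ψ ∈ A, ψ ∈ a.1}, ?_, ?_, ?_, ?_⟩
    · rintro a ⟨ψ, hψ, hψa⟩ b ⟨χ, hχ, hχb⟩ hab
      refine ⟨hab, ψ, hψa, χ, hχb, hAcr ψ hψ χ hχ ?_⟩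
      rintro rfl
      apply hab
      apply Subtype.ext
      rw [lb_eq D H hψa, lb_eq D H hχb]
    · rintro a ⟨ψ, hψ, hψa⟩ h
      have h1 := (hL a ⟨x, hx⟩).1 ψ (hAmn ψ hψ).1 hψa
        ((y1d x hx ψ (hAmn ψ hψ).1).2 (fun φ hφ hφJ => hAJ ψ hψ φ hφ hφJ))
      rw [h] at h1
      exact (hVX2 D x hx.1 ψ (hAmn ψ hψ).1).2.2.2.1 h1.symm
    · intro a
      refine ⟨hI a, fun h => ?_⟩
      have h1 := hIpow (p - 1) _ h
      rw [← mul_smul, ← pow_succ, Nat.sub_add_cancel hp.one_le, hn, one_smul] at h1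
      exact h1
    · have hz : D.Vx (D.act n.1 x) := vact x hx.1 n.1
      have claim : ∀ j, ∀ y' : D.YT J, (∀ ψ ∈ y'.1, ψ ∉ D.act n.1 x → D.Mn y'.1 ψ ∧ ψ ∈ A) →
          (y'.1 \ D.act n.1 x).ncard = j →
          ∃ γ ∈ rsub (D.lg H) {a | ∃ ψ ∈ A, ψ ∈ a.1}, (L.r y' γ).1 = D.act n.1 x := by
        intro j
        induction j with
        | zero =>
          intro y' hy' hcard
          have h1 := vsub y'.1 y'.2.1 _ hz
          have h2 := (Set.ncard_eq_zero h1.1).1 hcard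
          refine ⟨1, one_mem _, ?_⟩
          rw [LS.r_one]
          exact h1.2.2 (Set.sdiff_eq_empty.1 h2)
        | succ j ih =>
          intro y' hy' hcard
          have h1 := vsub y'.1 y'.2.1 _ hz
          have hne : (y'.1 \ D.act n.1 x).Nonempty := by
            rw [← Set.ncard_pos h1.1]
            omega
          obtain ⟨ψ, hψy, hψz⟩ := hne
          obtain ⟨hψm, hψA⟩ := hy' ψ hψy hψz
          have hψR : ψ ∈ D.Rt := y'.2.1.sub hψy
          have hψz' : -ψ ∈ D.act n.1 x := (hz.tot ψ hψR).resolve_left hψz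
          let a : D.Lb H := ⟨D.lab H ψ, ψ, hψR, rfl⟩
          have hτ : (L.τ a y').1 = D.fl y'.1 ψ := (hL a y').1 ψ hψm (lab_self D H ψ)
            ((y1d y'.1 y'.2 ψ hψm).2 (fun φ hφ hφJ => hAJ ψ hψA φ hφ hφJ))
          have hset : (L.τ a y').1 \ D.act n.1 x = (y'.1 \ D.act n.1 x) \ {ψ} := by
            rw [hτ]
            ext χ
            simp only [Rd.fl, Set.mem_sdiff, Set.mem_insert_iff, Set.mem_singleton_iff]
            constructor
            · rintro ⟨h2 | h2, h3⟩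
              · exact absurd (h2 ▸ hψz') h3
              · exact ⟨⟨h2.1, h3⟩, h2.2⟩
            · rintro ⟨⟨h2, h3⟩, h4⟩
              exact ⟨Or.inr ⟨h2, h4⟩, h3⟩
          obtain ⟨γ, hγ, hγz⟩ := ih (L.τ a y') (by
            intro χ hχ hχz
            have h2 : χ ∈ (y'.1 \ D.act n.1 x) \ {ψ} := by rw [← hset]; exact ⟨hχ, hχz⟩
            obtain ⟨h3, h4⟩ := hy' χ h2.1.1 hχz
            refine ⟨?_, h4⟩
            rw [hτ]
            exact ((hVX3 D y'.1 y'.2.1 ψ χ).2.1 hψm h3 (hAcr ψ hψA χ h4 (Ne.symm h2.2))).1)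
            (by
              have hmem : ψ ∈ y'.1 \ D.act n.1 x := ⟨hψy, hψz⟩
              rw [hset, Set.ncard_sdiff_singleton_of_mem hmem, hcard]
              rfl)
          have hga : rg (D.lg H) a ∈ rsub (D.lg H) {a | ∃ ψ ∈ A, ψ ∈ a.1} :=
            Subgroup.subset_closure ⟨a, ⟨ψ, hψA, lab_self D H ψ⟩, rfl⟩
          refine ⟨rg (D.lg H) a * γ, mul_mem hga hγ, ?_⟩
          rw [LS.r_mul, LS.r_rg]
          exact hγz
      obtain ⟨γ, hγ, hγz⟩ := claim _ ⟨x, hx⟩ (fun ψ hψ hψz => by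
        have h1 := hxA ψ hψ hψz
        exact ⟨(hAmn ψ h1).1, h1⟩) rfl
      exact ⟨γ, hγ, Subtype.ext hγz.symm⟩
  -- equivariance of `L`
  have hLeq : ∀ (n : N) (a : D.Lb H) (y : D.YT J), L.τ (n • a) (n • y) = n • L.τ a y := by
    intro n a y
    apply Subtype.ext
    exact y4a n.1 n.2 a (n • a) rfl y (n • y) rfl
  -- the action on the quotients
  have hrep : ∀ i (v : Q i), q i (f1 i v).choose = v := fun i v => (f1 i v).choose_spec
  have hact : ∀ i (n : N) (x y : D.YT J), q i x = q i y → q i (n • x) = q i (n • y) :=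
    fun i n x y h => f2 i n.1 n.2 x y (n • x) (n • y) rfl rfl h
  let aQ : ∀ i, MulAction N (Q i) := fun i =>
    { smul := fun n v => q i (n • (f1 i v).choose)
      one_smul := fun v => by
        change q i ((1 : N) • (f1 i v).choose) = v
        rw [one_smul, hrep]
      mul_smul := fun m n v => by
        change q i ((m * n) • (f1 i v).choose) = q i (m • (f1 i (q i (n • (f1 i v).choose))).choose)
        rw [mul_smul]
        exact hact i m _ _ (hrep i _).symm }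
  have hqs : ∀ i (n : N) (x : D.YT J), q i (n • x) = n • q i x := by
    intro i n x
    change q i (n • x) = q i (n • (f1 i (q i x)).choose)
    exact hact i n _ _ (hrep i _).symm
  -- moves
  have hmv : ∀ i (n : N) (a : D.Lb H) (v : Q i), (LQ i).τ a v ≠ v →
      (LQ i).τ (n • a) (n • v) = n • (LQ i).τ a v := by
    intro i n a v hv
    obtain ⟨x, rfl, hx⟩ := f4 i v
    have hx1 := hx a hv
    have h1 : L.τ (n • a) (n • x) ≠ n • x := by
      rw [hLeq]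
      exact fun h => hx1 (MulAction.injective n h)
    rw [← hqs, (f3 i (n • a) (n • x) h1).1, hLeq, (f3 i a x hx1).1, hqs]
  have key := hSMT (D.Lb H) (D.lg H) N p
    ({K' : Subgroup D.W // K' ≤ H ∧ K'.Normal ∧ K'.FiniteIndex} × ι) (fun i => Q i.2)
    (fun i => LQ i.2) (fun i => i.1.1.subgroupOf N)
    (by
      rintro n a b' ⟨hab, φ, hφ, ψ, hψ, h⟩
      refine ⟨?_, D.ρ n.1 φ, ⟨φ, hφ, rfl⟩, D.ρ n.1 ψ, ⟨ψ, hψ, rfl⟩, by rw [Binv]; exact h⟩
      intro h1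
      exact hab (MulAction.injective n h1))
    (by
      intro i n a v
      by_cases hv : (LQ i.2).τ a v = v
      · rw [hv]
        by_contra hcon
        have h1 := hmv i.2 n⁻¹ (n • a) (n • v) hcon
        rw [inv_smul_smul, inv_smul_smul, hv] at h1
        apply hcon
        rw [eq_inv_smul_iff] at h1
        exact h1.symm
      · exact hmv i.2 n a v hv)
    (fun i => i.1.2.2.1.comap _)
    (by
      intro i m hm a
      apply Subtype.ext
      obtain ⟨φ, hφ, ha⟩ := a.2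
      rw [hsmul1, ha, lab_image D H hDeep.nor]
      exact (lab_eq D H ⟨m.1, i.1.2.1 hm, Or.inl rfl⟩).symm)
    (by
      intro i m hm v h
      obtain ⟨x, rfl⟩ := f1 i.2 v
      rw [← hqs] at h
      exact Subtype.ext (f5 i.2 m.1 (i.1.2.1 hm) m.2 x (m • x) rfl h))
    (by
      intro i m hm h
      apply Subtype.ext
      exact hDeep.tf m.1 (i.1.2.1 hm) 2 (by norm_num) (congrArg Subtype.val h))
    (by
      intro i v v'
      obtain ⟨x, rfl⟩ := f1 i.2 v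
      obtain ⟨x', rfl⟩ := f1 i.2 v'
      obtain ⟨γ, hγ⟩ := y4b x x'
      obtain ⟨γ', hγ'⟩ := path_fold (L := L) (LQ := LQ i.2) (q := q i.2)
        (fun a y h => (f3 i.2 a y h).1) x γ
      exact ⟨γ', by rw [hγ', hγ]⟩)
    (fun i => ⟨q i.2 ⟨D.Ps, y1a⟩⟩)
    (by
      intro i
      obtain ⟨P, hP, hPc⟩ := f6 i.2 i.1.1 i.1.2.2.1 i.1.2.2.2
      refine ⟨P, hP, fun v => ?_⟩
      obtain ⟨x, rfl⟩ := f1 i.2 v
      obtain ⟨m, hm, hmN, x', hx', hmP⟩ := hPc x
      refine ⟨⟨m, hmN⟩, hm, ?_⟩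
      rw [← hqs]
      have h1 : (⟨m, hmN⟩ : N) • x = x' := Subtype.ext hx'.symm
      rw [h1]
      exact hmP)
    (by
      intro i MC hMCn hMCf
      obtain ⟨j, g1, g2⟩ := f7 i.2 MC hMCn hMCf
      obtain ⟨K', hK'H, hK'n, hK'f⟩ := i.1
      have hHf := hDeep.fin
      have hTf : ((MC.comap c).map H.subtype).FiniteIndex := by
        constructor
        rw [Subgroup.index_map_subtype]
        refine mul_ne_zero ?_ Subgroup.FiniteIndex.index_ne_zero
        rw [Subgroup.index_comap]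
        exact ne_zero_of_dvd_ne_zero hMCf.index_ne_zero
          (Subgroup.relIndex_dvd_index_of_normal MC c.range)
      have hκ : ∀ (a : D.Lb H) (y : D.YT J), L.τ a y ≠ y →
          κ ⟨(L.τ a y).1, (L.τ a y).2.1⟩ = κ ⟨y.1, y.2.1⟩ * rg (D.lg H) a := by
        intro a y h
        have h1 : ∃ φ, D.Mn y.1 φ ∧ φ ∈ a.1 ∧ D.YJ J (D.fl y.1 φ) := by
          by_contra hcon
          push Not at hcon
          exact h ((hL a y).2 (fun φ h1 h2 => hcon φ h1 h2))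
        obtain ⟨φ, h1, h2, h3⟩ := h1
        have h4 := (hL a y).1 φ h1 h2 h3
        have h5 := (hL' a ⟨y.1, y.2.1⟩).1 φ h1 h2
        have h6 : (⟨(L.τ a y).1, (L.τ a y).2.1⟩ : D.X) = L'.τ a ⟨y.1, y.2.1⟩ :=
          Subtype.ext (h4.trans h5.symm)
        rw [h6]
        refine hdev.step a _ fun h7 => h ?_
        apply Subtype.ext
        rw [h4, ← h5, h7]
      have hpi : ∀ x : D.YT J, q i.2 (f1 j (q j x)).choose = q i.2 x :=
        fun x => g1 _ _ (hrep j _)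
      have hka : ∀ x : D.YT J,
          (QuotientGroup.mk' MC (κ ⟨(f1 j (q j x)).choose.1, (f1 j (q j x)).choose.2.1⟩)) =
            QuotientGroup.mk' MC (κ ⟨x.1, x.2.1⟩) :=
        fun x => QuotientGroup.eq.2 (g2 _ _ (hrep j _))
      refine ⟨(⟨((MC.comap c).map H.subtype).normalCore ⊓ K', inf_le_right.trans hK'H,
        inferInstance, inferInstance⟩, j), Subgroup.comap_mono inf_le_right,
        fun v => q i.2 (f1 j v).choose, ?_, ?_,
        fun v => QuotientGroup.mk' MC (κ ⟨(f1 j v).choose.1, (f1 j v).choose.2.1⟩), ?_, ?_⟩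
      · intro n v
        obtain ⟨x, rfl⟩ := f1 j v
        change q i.2 (f1 j (n • q j x)).choose = n • q i.2 (f1 j (q j x)).choose
        rw [← hqs, hpi, hpi, hqs]
      · intro a v hv
        obtain ⟨x, rfl, hx⟩ := f4 j v
        have hx1 := hx a hv
        change (LQ i.2).τ a (q i.2 (f1 j (q j x)).choose) =
          q i.2 (f1 j ((LQ j).τ a (q j x))).choose ∧
          (LQ i.2).τ a (q i.2 (f1 j (q j x)).choose) ≠ q i.2 (f1 j (q j x)).choose
        rw [(f3 j a x hx1).1, hpi, hpi]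
        exact f3 i.2 a x hx1
      · intro a v hv
        obtain ⟨x, rfl, hx⟩ := f4 j v
        have hx1 := hx a hv
        change QuotientGroup.mk' MC (κ ⟨(f1 j ((LQ j).τ a (q j x))).choose.1,
          (f1 j ((LQ j).τ a (q j x))).choose.2.1⟩) =
          QuotientGroup.mk' MC (κ ⟨(f1 j (q j x)).choose.1, (f1 j (q j x)).choose.2.1⟩) *
            QuotientGroup.mk' MC (rg (D.lg H) a)
        rw [(f3 j a x hx1).1, hka, hka, hκ a x hx1, map_mul]
      · intro m hm v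
        obtain ⟨x, rfl⟩ := f1 j v
        change QuotientGroup.mk' MC (κ ⟨(f1 j (m • q j x)).choose.1,
          (f1 j (m • q j x)).choose.2.1⟩) =
          QuotientGroup.mk' MC (κ ⟨(f1 j (q j x)).choose.1, (f1 j (q j x)).choose.2.1⟩)
        rw [← hqs, hka, hka]
        have h1 : m.1 ∈ (MC.comap c).map H.subtype :=
          Subgroup.normalCore_le _ (Subgroup.mem_subgroupOf.1 hm).1
        obtain ⟨h, hh, hhm⟩ := h1
        have h2 := hdev.hol h ⟨x.1, x.2.1⟩ ⟨(m • x).1, (m • x).2.1⟩ (by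
          change D.act m.1 x.1 = D.act h.1 x.1
          rw [← hhm]
          rfl)
        rw [h2, map_mul]
        have h3 : QuotientGroup.mk' MC (c h) = 1 := (QuotientGroup.eq_one_iff _).2 hh
        rw [h3, one_mul])
  obtain ⟨i0⟩ := hιne
  obtain ⟨j, -, hkey⟩ := key (⟨M, hMH, hMn, hMf⟩, i0)
  refine ⟨j.1.1, j.1.2.1, j.1.2.2.1, j.1.2.2.2, ?_⟩
  intro n hn m hm hmN hnp hmnp
  have e1 : (⟨n, hn⟩ : N) ^ p = 1 := Subtype.ext hnp
  have e2 : ((⟨m, hmN⟩ : N) * ⟨n, hn⟩) ^ p = 1 := Subtype.ext hmnp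
  obtain ⟨m0, hm0, h⟩ := hkey ⟨n, hn⟩ ⟨m, hmN⟩ hm e1 e2
    (hasFix_fold (fun n y => hqs j.2 n y) (f3 j.2) (hfix _ e1))
    (hasFix_fold (fun n y => hqs j.2 n y) (f3 j.2) (hfix _ e2))
  exact ⟨m0.1, hm0, m0.2, congrArg Subtype.val h⟩

end Pool.CS
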