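import Pool.Agent.Work.MP_64ea0f_cs.InterfaceA

set_option autoImplicit false

/-! # Block DEO (helper17): Deodhar -/

namespace Pool.CS

namespace DEO

/-- connected component of `t` in `J` -/
def comp {S : Type} (k : S → S → ℝ) (J : Set S) (t : S) : Set S :=
  {r | Relation.ReflTransGen (fun a b => a ∈ J ∧ b ∈ J ∧ k a b ≠ 0) t r}

theorem self_mem_comp {S : Type} (k : S → S → ℝ) (J : Set S) (t : S) : t ∈ comp k J t :=
  Relation.ReflTransGen.refl

theorem comp_sub {S : Type} {k : S → S → ℝ} {J : Set S} {t : S} (ht : t ∈ J) :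
    comp k J t ⊆ J := by
  intro r hr
  change Relation.ReflTransGen _ t r at hr
  induction hr with
  | refl => exact ht
  | tail _ h _ => exact h.2.1

theorem comp_sep {S : Type} {k : S → S → ℝ} {J : Set S} {t : S} (ht : t ∈ J) :
    ∀ a ∈ comp k J t, ∀ b ∈ J \ comp k J t, k a b = 0 := by
  rintro a ha b ⟨hb, hb'⟩
  by_contra hk
  exact hb' (Relation.ReflTransGen.tail ha ⟨comp_sub ht ha, hb, hk⟩)

theorem comp_conn {S : Type} {k : S → S → ℝ} (hsymm : ∀ s t, k s t = k t s) {J : Set S} {t : S}
    (_ht : t ∈ J) (K' : Set S) (hK : K' ⊆ comp k J t) (hne : K'.Nonempty)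
    (h : ∀ a ∈ K', ∀ b ∈ comp k J t \ K', k a b = 0) : K' = comp k J t := by
  -- `K'` is closed under the relation, in both directions
  have hcl : ∀ a b, a ∈ comp k J t → b ∈ comp k J t → k a b ≠ 0 → (a ∈ K' ↔ b ∈ K') := by
    intro a b ha hb hk
    constructor
    · intro h1
      by_contra h2
      exact hk (h a h1 b ⟨hb, h2⟩)
    · intro h1
      by_contra h2
      apply hk
      rw [hsymm]
      exact h b h1 a ⟨ha, h2⟩
  have hall : ∀ r, r ∈ comp k J t → (t ∈ K' ↔ r ∈ K') := by
    intro r hr
    have hr' := hr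
    change Relation.ReflTransGen _ t r at hr'
    induction hr' with
    | refl => exact Iff.rfl
    | tail hab hbc ih =>
      exact (ih hab).trans (hcl _ _ hab (Relation.ReflTransGen.tail hab hbc) hbc.2.2)
  obtain ⟨a, ha⟩ := hne
  have htK : t ∈ K' := (hall a (hK ha)).2 ha
  exact Set.Subset.antisymm hK fun r hr => (hall r hr).1 htK

end DEO

theorem deo_thm : Stmt_BAS → Stmt_SGN → Stmt_LEN → Stmt_PAR → Stmt_NRM → Stmt_PFF →
    Stmt_DEO := by
  intro hB hS hL hPAR _ hPFF D J hJ
  obtain ⟨bsym, blin, bk, bsum, binv, b1, bes, bact, bneg, -, brf2, -, -, brfe, -, -⟩ := hB D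
  obtain ⟨spn, snot, -, ses, sref, -, -, -, -⟩ := hS D
  obtain ⟨lfin, lzero, -, lup, ldown, lex, -⟩ := hL D
  have hss : ∀ s, D.σ s * D.σ s = 1 := by
    intro s
    have := brf2 _ (bes s)
    rwa [brfe] at this
  have hρρ : ∀ s v, D.ρ (D.σ s) (D.ρ (D.σ s) v) = v := by
    intro s v
    rw [← Module.End.mul_apply, ← map_mul, hss, map_one, Module.End.one_apply]
  have hmul : ∀ w w' v, D.ρ (w * w') v = D.ρ w (D.ρ w' v) := by
    intro w w' v
    rw [map_mul, Module.End.mul_apply]
  -- the form and vectors supported in a set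
  have hBe : ∀ v s, D.B v (D.e s) = ∑ r, v r * D.k r s := by
    intro v s
    show ∑ a, ∑ b, v a * (Pi.single s 1 : D.S → ℝ) b * D.k a b = ∑ r, v r * D.k r s
    refine Finset.sum_congr rfl fun a _ => ?_
    rw [Finset.sum_eq_single s]
    · rw [Pi.single_eq_same, mul_one]
    · intro b _ hb
      rw [Pi.single_eq_of_ne hb, mul_zero, zero_mul]
    · intro h
      exact absurd (Finset.mem_univ s) h
  have hrefl : ∀ s v, D.ρ (D.σ s) v = v - (2 * D.B v (D.e s)) • D.e s := fun s v => D.refl s v
  -- the key claim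
  have claim : ∀ n ∈ D.NJ J, ∀ s, D.ρ n (D.e s) ∉ D.Ps → s ∉ J ∧ s ∈ D.perp J := by
    intro n hn s hs
    have hsJ : s ∉ J := by
      intro h
      refine hs ((hn (D.e s)).1 ⟨ses s, fun r hr => ?_⟩).1
      have : r ≠ s := by
        rintro rfl
        exact hr h
      show (Pi.single s 1 : D.S → ℝ) r = 0
      rw [Pi.single_eq_of_ne this]
    refine ⟨hsJ, ?_⟩
    by_contra hperp
    obtain ⟨t, htJ, hkt⟩ : ∃ t ∈ J, D.k s t ≠ 0 := by
      by_contra hcon
      push Not at hcon
      exact hperp hcon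
    -- a negative coordinate of `n (e s)` outside of `J`
    have hnegs : -D.ρ n (D.e s) ∈ D.Ps := by
      rcases spn _ (bact _ (bes s) n) with h1 | h1
      · exact absurd h1 hs
      · exact h1
    obtain ⟨r, hrJ, hr⟩ : ∃ r, r ∉ J ∧ D.ρ n (D.e s) r < 0 := by
      by_contra hcon
      push Not at hcon
      have h1 : D.In J (D.ρ n (-D.e s)) := by
        intro a ha
        have h2 := hcon a ha
        have h3 := hnegs.2 a
        simp only [Pi.neg_apply] at h3
        rw [map_neg, Pi.neg_apply]
        linarith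
      have h2 : D.ρ n (-D.e s) ∈ D.Ps := by
        rw [map_neg]
        exact hnegs
      exact snot _ (ses s) ((hn (-D.e s)).2 ⟨h2, h1⟩).1
    -- `n` maps vectors supported in `J` to such
    have hnJ : ∀ v, D.In J v → D.In J (D.ρ n v) := by
      intro v hv a ha
      have h1 : v = ∑ b, v b • D.e b := by
        funext c
        rw [Finset.sum_apply]
        simp only [Pi.smul_apply, smul_eq_mul, Rd.e]
        rw [Finset.sum_eq_single c]
        · rw [Pi.single_eq_same, mul_one]
        · intro b _ hb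
          rw [Pi.single_eq_of_ne hb.symm, mul_zero]
        · intro h
          exact absurd (Finset.mem_univ c) h
      rw [h1, map_sum, Finset.sum_apply]
      refine Finset.sum_eq_zero fun b _ => ?_
      rw [map_smul, Pi.smul_apply, smul_eq_mul]
      by_cases hb : b ∈ J
      · have h2 := ((hn (D.e b)).1 ⟨ses b, fun c hc => by
          have : c ≠ b := by
            rintro rfl
            exact hc hb
          show (Pi.single b 1 : D.S → ℝ) c = 0
          rw [Pi.single_eq_of_ne this]⟩).2 a ha
        rw [h2, mul_zero]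
      · rw [hv b hb, zero_mul]
    -- (a) positive roots supported in `J ∪ {s}` with positive `s`-coordinate are inversions
    have ha : ∀ φ ∈ D.Ps, D.In (insert s J) φ → 0 < φ s → φ ∈ D.N n := by
      intro φ hφ hIn hpos
      refine ⟨hφ, fun h1 => ?_⟩
      have h2 : D.In J (φ - φ s • D.e s) := by
        intro a ha
        rw [Pi.sub_apply, Pi.smul_apply, smul_eq_mul]
        by_cases h3 : a = s
        · subst h3
          show φ a - φ a * (Pi.single a 1 : D.S → ℝ) a = 0
          rw [Pi.single_eq_same]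
          ring
        · show φ a - φ s * (Pi.single s 1 : D.S → ℝ) a = 0
          rw [Pi.single_eq_of_ne h3, hIn a (fun h4 => by
            rcases h4 with h4 | h4
            · exact h3 h4
            · exact ha h4)]
          ring
      have h3 := hnJ _ h2 r hrJ
      rw [map_sub, map_smul, Pi.sub_apply, Pi.smul_apply, smul_eq_mul] at h3
      have h4 := h1.2 r
      have h5 : D.ρ n φ r = φ s * D.ρ n (D.e s) r := by linarith
      rw [h5] at h4
      nlinarith
    -- (c) the component
    obtain ⟨K, hKdef⟩ : ∃ K, K = DEO.comp D.k J t := ⟨_, rfl⟩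
    have hKJ : K ⊆ J := by rw [hKdef]; exact DEO.comp_sub htJ
    have htK : t ∈ K := by rw [hKdef]; exact DEO.self_mem_comp _ _ _
    have hsK : s ∉ K := fun h => hsJ (hKJ h)
    have hinf : ¬ Finite (D.par K) := by
      refine hJ K hKJ ⟨t, htK⟩ ?_
      rw [hKdef]
      exact DEO.comp_sep htJ
    apply hinf
    obtain ⟨-, -, hP3, -, -, -⟩ := hPAR D K
    -- (d) the orbit
    obtain ⟨O, hO⟩ : ∃ O : Set D.V, O = {φ | ∃ w ∈ D.par K, φ = D.ρ w (D.e s)} := ⟨_, rfl⟩
    have hdiff : ∀ φ ∈ O, D.In K (φ - D.e s) := by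
      rintro φ hφ
      rw [hO] at hφ
      obtain ⟨w, hw, rfl⟩ := hφ
      exact hP3 w hw (D.e s)
    have hes : D.e s s = 1 := by
      show (Pi.single s 1 : D.S → ℝ) s = 1
      rw [Pi.single_eq_same]
    have hcoord : ∀ φ ∈ O, φ s = 1 := by
      intro φ hφ
      have h1 := hdiff φ hφ s hsK
      rw [Pi.sub_apply, hes] at h1
      linarith
    have hOPs : ∀ φ ∈ O, φ ∈ D.Ps := by
      intro φ hφ
      have h1 := hcoord φ hφ
      have h2 : φ ∈ D.Rt := by
        rw [hO] at hφ
        obtain ⟨w, hw, rfl⟩ := hφ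
        exact bact _ (bes s) w
      rcases spn φ h2 with h3 | h3
      · exact h3
      · have h4 := h3.2 s
        rw [Pi.neg_apply, h1] at h4
        norm_num at h4
    have hOIn : ∀ φ ∈ O, D.In (insert s J) φ := by
      intro φ hφ a ha
      have h1 := hdiff φ hφ a (fun h => ha (Set.mem_insert_of_mem _ (hKJ h)))
      have h2 : a ≠ s := by
        rintro rfl
        exact ha (Set.mem_insert _ _)
      have h3 : D.e s a = 0 := by
        show (Pi.single s 1 : D.S → ℝ) a = 0
        rw [Pi.single_eq_of_ne h2]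
      rw [Pi.sub_apply, h3, sub_zero] at h1
      exact h1
    have hOfin : O.Finite := (lfin n).subset fun φ hφ =>
      ha φ (hOPs φ hφ) (hOIn φ hφ) (by rw [hcoord φ hφ]; norm_num)
    have hesO : D.e s ∈ O := by
      rw [hO]
      exact ⟨1, Subgroup.one_mem _, by rw [map_one, Module.End.one_apply]⟩
    -- (e) the sum over the orbit
    obtain ⟨v, hv⟩ : ∃ v : D.V, v = ∑ φ ∈ hOfin.toFinset, φ := ⟨_, rfl⟩
    obtain ⟨m, hm⟩ : ∃ m : ℝ, m = (hOfin.toFinset.card : ℝ) := ⟨_, rfl⟩
    have hmpos : 0 < m := by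
      rw [hm]
      have : 0 < hOfin.toFinset.card := Finset.card_pos.2 ⟨D.e s, (hOfin.mem_toFinset).2 hesO⟩
      exact_mod_cast this
    have hstab : ∀ w ∈ D.par K, D.ρ w v = v := by
      intro w hw
      rw [hv, map_sum]
      refine Finset.sum_bij (fun φ _ => D.ρ w φ) ?_ ?_ ?_ ?_
      · intro φ hφ
        rw [Set.Finite.mem_toFinset] at hφ ⊢
        rw [hO] at hφ ⊢
        obtain ⟨w', hw', rfl⟩ := hφ
        exact ⟨w * w', Subgroup.mul_mem _ hw hw', (hmul w w' _).symm⟩
      · intro x _ y _ hxy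
        have h1 : D.ρ w⁻¹ (D.ρ w x) = D.ρ w⁻¹ (D.ρ w y) := by rw [hxy]
        rwa [← hmul, ← hmul, inv_mul_cancel, map_one, Module.End.one_apply,
          Module.End.one_apply] at h1
      · intro φ hφ
        rw [Set.Finite.mem_toFinset, hO] at hφ
        obtain ⟨w', hw', rfl⟩ := hφ
        refine ⟨D.ρ (w⁻¹ * w') (D.e s), ?_, ?_⟩
        · rw [Set.Finite.mem_toFinset, hO]
          exact ⟨w⁻¹ * w', Subgroup.mul_mem _ (Subgroup.inv_mem _ hw) hw', rfl⟩
        · rw [← hmul, mul_inv_cancel_left]
      · intro _ _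
        rfl
    have hvdiff : D.In K (v - m • D.e s) := by
      intro a ha
      have h1 : v - m • D.e s = ∑ φ ∈ hOfin.toFinset, (φ - D.e s) := by
        rw [Finset.sum_sub_distrib, ← hv, Finset.sum_const, hm, Nat.cast_smul_eq_nsmul]
      rw [h1, Finset.sum_apply]
      exact Finset.sum_eq_zero fun φ hφ => hdiff φ ((hOfin.mem_toFinset).1 hφ) a ha
    have hBv : ∀ t' ∈ K, D.B v (D.e t') = 0 := by
      intro t' ht'
      have h1 := hstab (D.σ t') (Subgroup.subset_closure ⟨t', ht', rfl⟩)
      rw [hrefl] at h1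
      have h2 : (2 * D.B v (D.e t')) • D.e t' = 0 := by
        have h3 : v - (2 * D.B v (D.e t')) • D.e t' = v - 0 := by rw [h1, sub_zero]
        exact sub_right_injective h3
      have h3 := congrFun h2 t'
      rw [Pi.smul_apply, smul_eq_mul, Pi.zero_apply] at h3
      have h4 : D.e t' t' = 1 := by
        show (Pi.single t' 1 : D.S → ℝ) t' = 1
        rw [Pi.single_eq_same]
      rw [h4] at h3
      linarith
    have hBu : ∀ t' ∈ K, D.B (v - m • D.e s) (D.e t') = -(m * D.k s t') := by
      intro t' ht'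
      have h1 := blin 1 (-m) v (D.e s) (D.e t')
      rw [hBv t' ht', bk] at h1
      have h2 : (1 : ℝ) • v + (-m) • D.e s = v - m • D.e s := by module
      rw [h2] at h1
      rw [h1]
      ring
    -- (f) conclusion
    refine hPFF D K ?_ ⟨v - m • D.e s, ?_, hvdiff, ?_, t, htK, ?_⟩
    · intro K' hK' hne h
      rw [hKdef] at hK' h ⊢
      exact DEO.comp_conn D.symm htJ K' hK' hne h
    · intro a
      by_cases h1 : a = s
      · rw [h1, hvdiff s hsK]
      · have h2 : v - m • D.e s = ∑ φ ∈ hOfin.toFinset, (φ - D.e s) := by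
          rw [Finset.sum_sub_distrib, ← hv, Finset.sum_const, hm, Nat.cast_smul_eq_nsmul]
        rw [h2, Finset.sum_apply]
        refine Finset.sum_nonneg fun φ hφ => ?_
        have h3 : D.e s a = 0 := by
          show (Pi.single s 1 : D.S → ℝ) a = 0
          rw [Pi.single_eq_of_ne h1]
        rw [Pi.sub_apply, h3, sub_zero]
        exact (hOPs φ ((hOfin.mem_toFinset).1 hφ)).2 a
    · intro t' ht'
      rw [hBu t' ht']
      have h1 : D.k s t' ≤ 0 := D.off s t' (by rintro rfl; exact hsK ht')
      nlinarith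
    · rw [hBu t htK]
      have h1 : D.k s t ≤ 0 := D.off s t (by rintro rfl; exact hsK htK)
      have h2 : D.k s t < 0 := lt_of_le_of_ne h1 hkt
      nlinarith
  -- the induction
  have main : ∀ N : ℕ, ∀ n ∈ D.NJ J, D.len n = N → n ∈ D.par (D.perp J) := by
    intro N
    induction N with
    | zero =>
      intro n _ hn0
      rw [(lzero n).1 hn0]
      exact Subgroup.one_mem _
    | succ N ih =>
      intro n hn hlen
      have hne : n ≠ 1 := by
        intro h
        rw [(lzero n).2 h] at hlen
        omega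
      obtain ⟨s, hs⟩ := lex n hne
      obtain ⟨hsJ, hsp⟩ := claim n hn s hs
      have hfix : ∀ v, D.In J v → D.ρ (D.σ s) v = v := by
        intro v hv
        have h1 : D.B v (D.e s) = 0 := by
          rw [hBe]
          refine Finset.sum_eq_zero fun a _ => ?_
          by_cases ha : a ∈ J
          · rw [D.symm a s, hsp a ha, mul_zero]
          · rw [hv a ha, zero_mul]
        rw [hrefl, h1]
        module
      have hn' : n * D.σ s ∈ D.NJ J := by
        intro φ
        rw [hmul]
        constructor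
        · rintro ⟨h1, h2⟩
          rw [hfix φ h2]
          exact (hn φ).1 ⟨h1, h2⟩
        · intro h1
          obtain ⟨h2, h3⟩ := (hn (D.ρ (D.σ s) φ)).2 h1
          have h4 := hfix _ h3
          rw [hρρ] at h4
          rw [← h4] at h2 h3
          exact ⟨h2, h3⟩
      have h5 := ldown n s hs
      have h6 := ih (n * D.σ s) hn' (by omega)
      have h7 : n = n * D.σ s * D.σ s := by rw [mul_assoc, hss, mul_one]
      rw [h7]
      exact Subgroup.mul_mem _ h6 (Subgroup.subset_closure ⟨s, hsp, rfl⟩)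
  intro n hn
  exact main _ n hn rfl

end Pool.CS
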