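import Pool.Agent.Work.MP_64ea0f_cs.InterfaceG3

set_option autoImplicit false

/-! # Block FR1 (helper17): far coordinates under multiple shifts -/

namespace Pool.CS

theorem fr1_thm : Stmt_FAR2 → Stmt_ORD → Stmt_NRT → Stmt_FR1 := by
  intro hF hO hN D K _ C N hOk
  obtain ⟨hC, -, hfar, -, -⟩ := hOk
  obtain ⟨n1, n2, -⟩ := hN D K C
  have key : ∀ x, D.Vx x → ∀ δ δ', D.Af δ → D.Big x δ → D.Cmp K δ → D.Far K C x δ' →
      D.B δ δ' = 0 := by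
    intro x hx δ δ' hA hB hcmp hfar'
    have h1 := (hO D δ δ' hA hfar'.1).1
    rcases h1.lt_or_eq with h | h
    · exfalso
      have h2 : D.B δ' δ < 0 := by rwa [D.B_symm]
      have h3 := hF D K x hx δ' δ hfar'.1 hA hB hcmp h2
      exact hfar'.2 ((hN D K 0).2.1 C x δ' hC h3)
    · exact h
  refine ⟨?_, ?_⟩
  · intro Δ ν x y hM δ' hf
    have h1 : ∀ δ ∈ Δ, δ ≠ δ' → D.B δ δ' = 0 := by
      intro δ hδ _
      obtain ⟨a1, a2, a3, -⟩ := hM.af δ hδ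
      exact key x hM.vx.1 δ δ' a1 a3 a2 hf
    refine ⟨h1, fun hδ' => ?_⟩
    have h2 : ∀ φ ∈ D.Fd δ', φ ∈ x ↔ φ ∈ y := by
      intro φ hφ
      refine hM.out φ hφ.1 fun δ hδ => ?_
      have hne : δ ≠ δ' := fun h => hδ' (h ▸ hδ)
      have h3 : D.B δ' δ = 0 := by rw [D.B_symm]; exact h1 δ hδ hne
      exact ((hO D δ' δ hf.1 (hM.af δ hδ).1).2 h3 hne.symm φ hφ).1
    exact ⟨h2, hf.1, fun hn => hf.2 (n1 y x δ' (fun φ hφ => (h2 φ hφ).symm) hn)⟩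
  · intro x hx δ δ' h1 h2 _
    obtain ⟨b1, b2, -⟩ := hfar x hx δ h1
    exact key x hx.1 δ δ' h1.1 b1 b2 h2

end Pool.CS
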