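import Pool.Agent.Work.MP_64ea0f_cs.InterfaceA

set_option autoImplicit false

/-! # Block LEN (helper17): inversions -/

namespace Pool.CS

theorem len_thm : Stmt_BAS → Stmt_SGN → Stmt_LEN := by
  intro hB hS D
  obtain ⟨-, -, bk, -, -, -, bes, bact, bneg, -, brf2, -, -, brfe, -, -⟩ := hB D
  obtain ⟨spn, snot, -, ses, sref, -, -, -, -⟩ := hS D
  have hss : ∀ s, D.σ s * D.σ s = 1 := by
    intro s
    have := brf2 _ (bes s)
    rwa [brfe] at this
  have hρρ : ∀ s v, D.ρ (D.σ s) (D.ρ (D.σ s) v) = v := by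
    intro s v
    rw [← Module.End.mul_apply, ← map_mul, hss, map_one, Module.End.one_apply]
  have hse : ∀ s, D.ρ (D.σ s) (D.e s) = -D.e s := by
    intro s
    have h1 := D.refl s (D.e s)
    have h2 : bform D.k (D.e s) (Pi.single s 1) = 1 := by
      have := bk s s
      rw [D.diag] at this
      exact this
    rw [h2] at h1
    rw [h1]
    show D.e s - (2 * 1 : ℝ) • D.e s = -D.e s
    module
  have hinj : ∀ w, Function.Injective (D.ρ w) := by
    intro w x y hxy
    have h1 : D.ρ w⁻¹ (D.ρ w x) = D.ρ w⁻¹ (D.ρ w y) := by rw [hxy]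
    rwa [← Module.End.mul_apply, ← Module.End.mul_apply, ← map_mul, inv_mul_cancel, map_one,
      Module.End.one_apply, Module.End.one_apply] at h1
  have hmul : ∀ w w' v, D.ρ (w * w') v = D.ρ w (D.ρ w' v) := by
    intro w w' v
    rw [map_mul, Module.End.mul_apply]
  -- (3)
  have h3 : ∀ w s, D.ρ w (D.e s) ∈ D.Ps →
      D.N (w * D.σ s) = insert (D.e s) (D.ρ (D.σ s) '' D.N w) := by
    intro w s hpos
    ext v
    simp only [Rd.N, Set.mem_ofPred_eq, Set.mem_insert_iff, Set.mem_image]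
    constructor
    · rintro ⟨h1, h2⟩
      by_cases hne : v = D.e s
      · exact Or.inl hne
      · refine Or.inr ⟨D.ρ (D.σ s) v, ⟨sref s v h1 hne, ?_⟩, hρρ s v⟩
        rwa [hmul] at h2
    · rintro (rfl | ⟨u, ⟨h1, h2⟩, rfl⟩)
      · refine ⟨ses s, ?_⟩
        rw [hmul, hse, map_neg]
        exact snot _ hpos
      · have hne : u ≠ D.e s := by
          rintro rfl
          exact h2 hpos
        refine ⟨sref s u h1 hne, ?_⟩
        rw [hmul, hρρ]
        exact h2
  -- the other case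
  have hneg : ∀ w s, D.ρ w (D.e s) ∉ D.Ps → D.ρ (w * D.σ s) (D.e s) ∈ D.Ps := by
    intro w s h
    rw [hmul, hse, map_neg]
    rcases spn _ (bact _ (bes s) w) with h1 | h1
    · exact absurd h1 h
    · exact h1
  have hback : ∀ w s, w * D.σ s * D.σ s = w := by
    intro w s
    rw [mul_assoc, hss, mul_one]
  have hN1 : D.N 1 = ∅ := by
    ext v
    simp only [Rd.N, Set.mem_ofPred_eq, map_one, Module.End.one_apply, Set.mem_empty_iff_false,
      iff_false]
    rintro ⟨h1, h2⟩
    exact h2 h1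
  -- (1)
  have hstep : ∀ w s, (D.N w).Finite → (D.N (w * D.σ s)).Finite := by
    intro w s hw
    by_cases hpos : D.ρ w (D.e s) ∈ D.Ps
    · rw [h3 w s hpos]
      exact (hw.image _).insert _
    · have h4 := h3 (w * D.σ s) s (hneg w s hpos)
      rw [hback] at h4
      rw [h4] at hw
      exact Set.Finite.of_finite_image (hw.subset (Set.subset_insert _ _)) ((hinj _).injOn)
  have h1 : ∀ w, (D.N w).Finite := by
    intro w
    have hw : w ∈ Subgroup.closure (Set.range D.σ) := by rw [D.gen]; trivial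
    induction hw using Subgroup.closure_induction_right with
    | one => rw [hN1]; exact Set.finite_empty
    | mul_right x _ y hy ih =>
      obtain ⟨s, rfl⟩ := hy
      exact hstep x s ih
    | mul_inv_cancel x _ y hy ih =>
      obtain ⟨s, rfl⟩ := hy
      have h5 : (D.σ s)⁻¹ = D.σ s := inv_eq_of_mul_eq_one_left (hss s)
      rw [h5]
      exact hstep x s ih
  -- (6)
  have h6 : ∀ w, w ≠ 1 → ∃ s, D.ρ w (D.e s) ∉ D.Ps := by
    intro w hw
    by_contra hcon
    push Not at hcon
    exact hw (D.triv w fun s t => (hcon s).2 t)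
  -- (4)
  have h4 : ∀ w s, D.ρ w (D.e s) ∈ D.Ps → D.len (w * D.σ s) = D.len w + 1 := by
    intro w s hpos
    have hnot : D.e s ∉ D.ρ (D.σ s) '' D.N w := by
      rintro ⟨v, ⟨hv, -⟩, h5⟩
      have h6 : v = -D.e s := by
        rw [← hρρ s v, h5, hse]
      rw [h6] at hv
      exact snot _ (ses s) hv
    unfold Rd.len
    rw [h3 w s hpos, Set.ncard_insert_of_notMem hnot ((h1 w).image _),
      Set.ncard_image_of_injective _ (hinj _)]
  refine ⟨h1, fun w => ⟨fun hw => ?_, ?_⟩, h3, h4, fun w s hn => ?_, h6, fun w w' => ?_⟩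
  · by_contra hne
    obtain ⟨s, hs⟩ := h6 w hne
    have h7 : D.N w = ∅ := (Set.ncard_eq_zero (h1 w)).1 hw
    have h8 : D.e s ∈ D.N w := ⟨ses s, hs⟩
    rw [h7] at h8
    exact h8
  · rintro rfl
    unfold Rd.len
    rw [hN1, Set.ncard_empty]
  · have h7 := h4 (w * D.σ s) s (hneg w s hn)
    rw [hback] at h7
    omega
  · refine ((h1 (w'⁻¹ * w)).image (D.ρ w)).subset ?_
    rintro φ ⟨h7, h8⟩
    refine ⟨D.ρ w⁻¹ φ, ⟨h7, ?_⟩, ?_⟩
    · intro h9
      apply h8
      rw [hmul, ← hmul w w⁻¹, mul_inv_cancel, map_one, Module.End.one_apply] at h9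
      exact h9
    · rw [← hmul, mul_inv_cancel, map_one, Module.End.one_apply]

end Pool.CS
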